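import Pool.Agent.Lib.MP_19d06a_co.AT.WALK
import Pool.Agent.Lib.MP_19d06a_co.AT.LOOP
import Pool.Agent.Lib.MP_19d06a_co.AT.VEX
import Pool.Agent.Lib.MP_19d06a_co.AT.ORI
import Pool.Agent.Lib.MP_19d06a_co.AT.EVT
import Pool.Agent.Lib.MP_19d06a_co.AT.KEY
import Pool.Agent.Lib.MP_19d06a_co.AT.OTW
import Pool.Agent.Lib.MP_19d06a_co.AT.OFO
import Pool.Agent.Lib.MP_19d06a_co.AT.PIG
import Pool.Agent.Lib.MP_19d06a_co.AT.RFN
import Pool.Agent.Lib.MP_19d06a_co.AT.RED
import Pool.Agent.Lib.MP_19d06a_co.AT.UNB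
import Pool.Agent.Lib.MP_19d06a_co.AT.FIN
import Pool.Agent.Lib.MP_19d06a_co.AT.ONE
import Pool.Agent.Lib.MP_19d06a_co.AT.TWT
import Pool.Agent.Lib.MP_19d06a_co.AT.TTF
import Pool.Agent.Lib.MP_19d06a_co.AT.SAU
import Pool.Agent.Lib.MP_19d06a_co.AT.CMB
import Pool.Agent.Lib.MP_19d06a_co.AT.FEW
import Pool.Agent.Lib.MP_19d06a_co.AT.HLF
import Pool.Agent.Lib.MP_19d06a_co.AT.LAT
import Pool.Agent.Lib.MP_19d06a_co.AT.VCB
import Pool.Agent.Lib.MP_19d06a_co.AT.HOM
import Pool.Agent.Lib.MP_19d06a_co.AT.UPB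
import Pool.Agent.Lib.MP_19d06a_co.AT.IVT
import Pool.Agent.Lib.MP_19d06a_co.AT.DSC
import Pool.Agent.Lib.MP_19d06a_co.AT.SWP
import Pool.Agent.Lib.MP_19d06a_co.AT.HPT
import Pool.Agent.Lib.MP_19d06a_co.AT.SML
import Pool.Agent.Lib.MP_19d06a_co.AT.COV
import Pool.Agent.Lib.MP_19d06a_co.AT.LFT
import Pool.Agent.Lib.MP_19d06a_co.AT.LRG
import Pool.Agent.Lib.MP_19d06a_co.AT.FNB

/-!
For which `k` and `s` are the VC-dimensions of the generalized progressions `P(a, N)` of rank `k` in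
nilpotent groups of class at most `s` bounded? Exactly for `k = 1` and for `k + s ≤ 4`. In
particular there are no constants `C(k, s)` as in the question.
-/

set_option autoImplicit false

namespace Pool.Agent.Results.MP_19d06a_co.CompleteThreshold

open Pool.Agent.VCNil

/-- The literal negation of Q1 and the complete answer: (1) it is false that for all `k, s ≥ 1`
there is a finite `C` with `VC_G(P(a, N)) ≤ C` for all nilpotent groups `G` of class at most `s`, all
`a ∈ G^k` and all `N ∈ ℕ^k`; (2) for `k, s ≥ 1` such a `C` exists if and only if `k = 1` or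
`k + s ≤ 4`. -/
theorem result :
    (¬ ∀ k s : ℕ, 1 ≤ k → 1 ≤ s → ∃ C : ℕ,
        ∀ (G : Type) [Group G] [Group.IsNilpotent G], Group.nilpotencyClass G ≤ s →
          ∀ (a : Fin k → G) (N : Fin k → ℕ),
            vcDim (leftTranslates (genProg a N)) ≤ (C : ℕ∞)) ∧
    (∀ k s : ℕ, 1 ≤ k → 1 ≤ s →
      ((∃ C : ℕ, ∀ (G : Type) [Group G] [Group.IsNilpotent G], Group.nilpotencyClass G ≤ s →
          ∀ (a : Fin k → G) (N : Fin k → ℕ),
            vcDim (leftTranslates (genProg a N)) ≤ (C : ℕ∞)) ↔ (k = 1 ∨ k + s ≤ 4))) := by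
  have hVEX : AT.SpecVEX := AT.specVEX AT.specWALK AT.specLOOP
  have hEVT : AT.SpecEVT := AT.specEVT AT.specORI
  have hOFO : AT.SpecOFO := AT.specOFO AT.specKEY AT.specOTW
  have hPIG : AT.SpecPIG := AT.specPIG hVEX hEVT hOFO
  have hRED : AT.SpecRED := AT.specRED AT.specRFN
  obtain ⟨h1, h2, h3⟩ := AT.specFIN hPIG hRED AT.specUNB
  have hLAT : AT.SpecLAT := AT.specLAT hPIG AT.specRFN
  have hVCB : AT.SpecVCB := AT.specVCB hLAT
  have hDSC : AT.SpecDSC := AT.specDSC AT.specUPB AT.specIVT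
  have hHPT : AT.SpecHPT := AT.specHPT (AT.specHLF AT.specSAU) AT.specCMB hDSC
  have hSML : AT.SpecSML := AT.specSML AT.specSAU AT.specCMB hVCB hDSC
  have hLRG : AT.SpecLRG := AT.specLRG AT.specCMB AT.specFEW hVCB AT.specUPB hHPT
    (AT.specCOV hDSC) AT.specLFT
  have h22 : AT.Bounded 2 2 := AT.specFNB AT.specFEW AT.specHOM AT.specSWP hSML hLRG
  refine ⟨?_, ?_⟩
  · intro hall
    exact h2 4 1 le_rfl le_rfl (hall 4 1 (by norm_num) le_rfl)
  · intro k s hk hs
    constructor
    · intro hb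
      by_contra hcon
      have hk1 : k ≠ 1 := fun h => hcon (Or.inl h)
      have hks : ¬ k + s ≤ 4 := fun h => hcon (Or.inr h)
      by_cases h4 : 4 ≤ k
      · exact h2 k s h4 hs hb
      · by_cases h3' : 3 ≤ k
        · exact AT.TTHaux.not_bounded k s h3' (by omega) hb
        · exact AT.TWTaux.not_bounded k s (by omega) (by omega) hb
    · intro h
      by_cases hk1 : k = 1
      · subst hk1
        refine ⟨51, fun G _ _ _ a N => ?_⟩
        have h5 := AT.ONEaux.commuting 50 1 (fun H _ b M => h3 1 H b M (by norm_num)) G a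
          (fun i j => by rw [Subsingleton.elim i j]) N
        exact h5
      · have hks : k + s ≤ 4 := by omega
        by_cases hs1 : s = 1
        · subst hs1
          exact (h1 k hk).2 (by omega)
        · have hk2 : k = 2 := by omega
          have hs2 : s = 2 := by omega
          subst hk2
          subst hs2
          exact h22

end Pool.Agent.Results.MP_19d06a_co.CompleteThreshold
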