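import Pool.Agent.Lib.MP_19d06a_co.AT.WALK
import Pool.Agent.Lib.MP_19d06a_co.AT.LOOP
import Pool.Agent.Lib.MP_19d06a_co.AT.VEX
import Pool.Agent.Lib.MP_19d06a_co.AT.ORI
import Pool.Agent.Lib.MP_19d06a_co.AT.EVT
import Pool.Agent.Lib.MP_19d06a_co.AT.KEY
import Pool.Agent.Lib.MP_19d06a_co.AT.OTW
import Pool.Agent.Lib.MP_19d06a_co.AT.OFO
import Pool.Agent.Lib.MP_19d06a_co.AT.PIG
import Pool.Agent.Lib.MP_19d06a_co.AT.RFN
import Pool.Agent.Lib.MP_19d06a_co.AT.RED
import Pool.Agent.Lib.MP_19d06a_co.AT.UNB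
import Pool.Agent.Lib.MP_19d06a_co.AT.FIN
import Pool.Agent.Lib.MP_19d06a_co.AT.ONE
import Pool.Agent.Lib.MP_19d06a_co.AT.UNZ
import Pool.Agent.Lib.MP_19d06a_co.AT.CLS

/-!
Generalized progressions `P(a, N)` of rank `k` inside one fixed group: the VC-dimensions are bounded
in a fixed abelian group if and only if `k ≤ 3` or the group has finite exponent, with the absolute
bound `50` for `k ≤ 3`; for `k ≥ 4` they are unbounded in every group of infinite exponent.
-/

set_option autoImplicit false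

namespace Pool.Agent.Results.MP_19d06a_co.FixedGroup

open Pool.Agent.VCNil

/-- Inside one fixed group `G`: (1) if `G` is abelian, the values `VC_G(P(a, N))` of rank `k` are
bounded if and only if `k ≤ 3` or `G` has finite exponent; (2) for `k ≤ 3` the bound `50` holds in
every abelian group, (3) and for `k ≤ 3` and pairwise commuting `a_i` the bound `51` holds in every
group; (4) for `k ≥ 4` the values are unbounded in every single group (commutative or not) which does
not have finite exponent. -/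
theorem result :
    (∀ (G : Type) [CommGroup G] (k : ℕ),
      ((∃ C : ℕ, ∀ (a : Fin k → G) (N : Fin k → ℕ),
          vcDim (leftTranslates (genProg a N)) ≤ (C : ℕ∞)) ↔
        (k ≤ 3 ∨ ∃ e : ℕ, 0 < e ∧ ∀ x : G, x ^ e = 1))) ∧
    (∀ (k : ℕ) (G : Type) [CommGroup G] (a : Fin k → G) (N : Fin k → ℕ), k ≤ 3 →
      vcDim (leftTranslates (genProg a N)) ≤ 50) ∧
    (∀ (k : ℕ) (G : Type) [Group G] (a : Fin k → G) (N : Fin k → ℕ), k ≤ 3 →
      (∀ i j, a i * a j = a j * a i) → vcDim (leftTranslates (genProg a N)) ≤ 51) ∧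
    (∀ k : ℕ, 4 ≤ k → ∀ (G : Type) [Group G], (¬ ∃ e : ℕ, 0 < e ∧ ∀ x : G, x ^ e = 1) →
      ∀ d : ℕ, ∃ (a : Fin k → G) (N : Fin k → ℕ),
        (d : ℕ∞) ≤ vcDim (leftTranslates (genProg a N))) := by
  have hVEX : AT.SpecVEX := AT.specVEX AT.specWALK AT.specLOOP
  have hEVT : AT.SpecEVT := AT.specEVT AT.specORI
  have hOFO : AT.SpecOFO := AT.specOFO AT.specKEY AT.specOTW
  have hPIG : AT.SpecPIG := AT.specPIG hVEX hEVT hOFO
  have hRED : AT.SpecRED := AT.specRED AT.specRFN
  obtain ⟨h1, h2, h3⟩ := AT.specFIN hPIG hRED AT.specUNB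
  refine ⟨?_, h3, ?_, ?_⟩
  · intro G _ k
    exact AT.CLSaux.classification h3 G k
  · intro k G _ a N hk ha
    exact AT.ONEaux.commuting 50 k (fun H _ b M => h3 k H b M hk) G a ha N
  · intro k hk G _ hG d
    exact AT.CLSaux.unbounded k hk G hG d

end Pool.Agent.Results.MP_19d06a_co.FixedGroup
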